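import Pool.Agent.MT100B.Stmts
import Pool.Agent.Helper94_MT100.Mer

/-! Module CYC of MT100B: the vanishing vector at the conifold point is cyclic (odd order). -/

set_option autoImplicit false

open Filter Topology Set Matrix
open scoped BigOperators

noncomputable section

namespace Pool.Agent.MT100B.H94

open Pool.Agent.MT100 Pool.Agent.MT100.H94

/-! ### The first column -/

/-- the first column of `W` is holomorphic in `z` -/
theorem W_col (D : Dat) (w : ℝ) (a : Fin (ro D)) :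
    W D w a (fz D) = ev (Hyp D a (fz D)) w⁻¹ := by
  rw [W, Matrix.mul_apply, Finset.sum_eq_single (fz D)]
  · rw [Matrix.map_apply, en, if_pos le_rfl]
    simp
  · intro l _ hl
    have h1 : ¬ l ≤ fz D := by
      intro h
      apply hl
      apply Fin.ext
      have h2 : (l : ℕ) ≤ (fz D : Fin (ro D)) := h
      have h3 : ((fz D : Fin (ro D)) : ℕ) = 0 := rfl
      omega
    rw [en, if_neg h1, mul_zero]
  · intro h
    exact absurd (Finset.mem_univ _) h

/-- the coefficients of the holomorphic solution -/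
def h0 (D : Dat) (k : ℕ) : ℚ := PowerSeries.coeff k (Hyp D (fz D) (fz D))

theorem h0_nonneg (hhg : Hg0Stmt) (D : Dat) (k : ℕ) (hk : 1 ≤ k) : 0 ≤ h0 D k := by
  obtain ⟨_, c, hc, h3⟩ := hhg D
  have h4 := h3 k hk
  have h5 : 0 < c * D.lam ^ k := mul_pos hc (pow_pos D.lam_pos k)
  have h6 : 0 < h0 D k * (k : ℚ) ^ (D.s + 1) := lt_of_lt_of_le h5 h4
  have h7 : (0 : ℚ) < (k : ℚ) ^ (D.s + 1) := by positivity
  exact (pos_of_mul_pos_left h6 h7.le).le

theorem lam_pos' (D : Dat) : (0 : ℝ) < D.lam := by exact_mod_cast D.lam_pos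

/-- the differential equation for the rows -/
theorem W_deriv (hana : AnaStmt) (D : Dat) (a : Fin (ro D)) (ha : (a : ℕ) + 1 < ro D)
    (i : Fin (ro D)) {u : ℝ} (hu : 0 < u) : HasDerivAt (fun x => W D (D.lam + x) a i)
      (-((D.lam + u)⁻¹ * W D (D.lam + u) ⟨(a : ℕ) + 1, ha⟩ i)) u := by
  have hw : (D.lam : ℝ) < D.lam + u := by linarith
  have hw0 : (0 : ℝ) < D.lam + u := lt_trans (lam_pos' D) hw
  obtain ⟨_, _, _, h4⟩ := hana D (D.lam + u) hw
  have h5 := h4 a i
  have h6 : (((A0 D).map (fun p => (p.map (algebraMap ℚ ℝ)).eval ((D.lam : ℝ) + u)⁻¹)) *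
      W D (D.lam + u)) a i = (1 - (D.lam : ℝ) * (D.lam + u)⁻¹) *
        W D (D.lam + u) ⟨(a : ℕ) + 1, ha⟩ i := by
    rw [Matrix.mul_apply, Finset.sum_eq_single ⟨(a : ℕ) + 1, ha⟩]
    · rw [Matrix.map_apply, A0, if_pos rfl, if_neg ha.ne, add_zero]
      simp
    · intro b _ hb
      rw [Matrix.map_apply, A0, if_neg, if_neg ha.ne, add_zero]
      · simp
      · intro h'
        apply hb
        exact Fin.ext h'.symm
    · intro h'
      exact absurd (Finset.mem_univ _) h'
  rw [h6] at h5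
  have h7 : HasDerivAt (fun x : ℝ => (D.lam : ℝ) + x) 1 u := by
    simpa using (hasDerivAt_id u).const_add (D.lam : ℝ)
  have h8 := h5.comp u h7
  have h9 : -(((D.lam : ℝ) + u - D.lam)⁻¹ * ((1 - (D.lam : ℝ) * (D.lam + u)⁻¹) *
      W D (D.lam + u) ⟨(a : ℕ) + 1, ha⟩ i)) * 1 =
      -((D.lam + u)⁻¹ * W D (D.lam + u) ⟨(a : ℕ) + 1, ha⟩ i) := by
    have h10 : ((D.lam : ℝ) + u - D.lam)⁻¹ * (1 - (D.lam : ℝ) * (D.lam + u)⁻¹) =
        (D.lam + u)⁻¹ := by
      have e1 : (D.lam : ℝ) + u - D.lam = u := by ring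
      have e2 : u ≠ 0 := hu.ne'
      rw [e1]
      field_simp
      ring
    rw [mul_one, ← mul_assoc, h10]
  rw [h9] at h8
  exact h8

/-- analyticity at the conifold point passes to the next row -/
theorem boot (hana : AnaStmt) (D : Dat) (a : Fin (ro D)) (ha : (a : ℕ) + 1 < ro D)
    (i : Fin (ro D)) {g : ℝ → ℝ} (hg : AnalyticAt ℝ g 0)
    (h : ∀ᶠ u in 𝓝[>] (0 : ℝ), W D (D.lam + u) a i = g u) :
    ∃ g' : ℝ → ℝ, AnalyticAt ℝ g' 0 ∧
      ∀ᶠ u in 𝓝[>] (0 : ℝ), W D (D.lam + u) ⟨(a : ℕ) + 1, ha⟩ i = g' u := by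
  refine ⟨fun u => -((D.lam + u) * deriv g u),
    ((analyticAt_const.add analyticAt_id).mul hg.deriv).neg, ?_⟩
  have h1' : ∀ᶠ u in 𝓝[>] (0 : ℝ), ∀ᶠ x in 𝓝 u, W D (D.lam + x) a i = g x := by
    have := (eventually_eventually_nhdsWithin (s := Ioi (0 : ℝ)) (a := (0 : ℝ))
      (p := fun x => W D (D.lam + x) a i = g x)).2 h
    filter_upwards [this, self_mem_nhdsWithin] with u h2 h3
    rwa [isOpen_Ioi.nhdsWithin_eq h3] at h2
  filter_upwards [h1', self_mem_nhdsWithin] with u h2 h3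
  have hu : (0 : ℝ) < u := h3
  have hw0 : (0 : ℝ) < D.lam + u := by have := lam_pos' D; linarith
  have h4 := W_deriv hana D a ha i hu
  have h5 : deriv g u = -((D.lam + u)⁻¹ * W D (D.lam + u) ⟨(a : ℕ) + 1, ha⟩ i) := by
    have h6 : (fun x => W D (D.lam + x) a i) =ᶠ[𝓝 u] g := h2
    exact (h4.congr_of_eventuallyEq h6.symm).deriv
  rw [h5]
  field_simp

/-- the row `s + 1` of the first column is unbounded at the conifold point -/
theorem unbounded (hhg : Hg0Stmt) (hgr : HgrStmt) (D : Dat) (a : Fin (ro D))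
    (ha : (a : ℕ) = D.s + 1) {g : ℝ → ℝ} (hg : ContinuousAt g 0)
    (h : ∀ᶠ u in 𝓝[>] (0 : ℝ), W D (D.lam + u) a (fz D) = g u) : False := by
  obtain ⟨h1, c, hc, h3⟩ := hhg D
  obtain ⟨C, hC⟩ := hgr D
  have hc' : (0 : ℝ) < c := by exact_mod_cast hc
  have hlam := lam_pos' D
  -- lower bound by the partial sums
  have key : ∀ K : ℕ, (c : ℝ) * K ≤ g 0 := by
    intro K
    have t1 : Tendsto (fun u : ℝ => ∑ k ∈ Finset.range K,
        (c : ℝ) * ((D.lam : ℝ) * (D.lam + u)⁻¹) ^ (k + 1)) (𝓝[>] (0 : ℝ)) (𝓝 ((c : ℝ) * K)) := by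
      have t2 : ContinuousAt (fun u : ℝ => ∑ k ∈ Finset.range K,
          (c : ℝ) * ((D.lam : ℝ) * (D.lam + u)⁻¹) ^ (k + 1)) 0 := by
        apply tendsto_finsetSum
        intro k _
        apply ContinuousAt.mul continuousAt_const
        apply ContinuousAt.pow
        apply ContinuousAt.mul continuousAt_const
        apply ContinuousAt.inv₀ (by fun_prop)
        rw [add_zero]
        exact hlam.ne'
      have t3 : ∑ k ∈ Finset.range K,
          (c : ℝ) * ((D.lam : ℝ) * ((D.lam : ℝ) + 0)⁻¹) ^ (k + 1) = (c : ℝ) * K := by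
        rw [add_zero, mul_inv_cancel₀ hlam.ne']
        simp only [one_pow, mul_one, Finset.sum_const, Finset.card_range, nsmul_eq_mul]
        ring
      have t4 := t2.tendsto.mono_left (nhdsWithin_le_nhds (s := Ioi (0 : ℝ)))
      rwa [t3] at t4
    have t5 : Tendsto g (𝓝[>] (0 : ℝ)) (𝓝 (g 0)) := hg.tendsto.mono_left nhdsWithin_le_nhds
    apply le_of_tendsto_of_tendsto t1 t5
    filter_upwards [h, self_mem_nhdsWithin] with u h4 h5
    have hu : (0 : ℝ) < u := h5
    have hw0 : (0 : ℝ) < D.lam + u := by linarith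
    rw [← h4, W_col, ev]
    set x : ℝ := (D.lam + u)⁻¹ with hx
    have hx0 : 0 < x := inv_pos.2 hw0
    have hlx : (D.lam : ℝ) * x < 1 := by
      rw [hx, ← div_eq_mul_inv, div_lt_one hw0]
      linarith
    have hlx0 : 0 ≤ (D.lam : ℝ) * x := (mul_pos hlam hx0).le
    have hcoef : ∀ k : ℕ, ((PowerSeries.coeff k (Hyp D a (fz D)) : ℚ) : ℝ) =
        (k : ℝ) ^ (D.s + 1) * ((h0 D k : ℚ) : ℝ) := by
      intro k
      rw [h1 a k, ha]
      push_cast
      rfl
    have hnn : ∀ k : ℕ, 0 ≤ ((PowerSeries.coeff k (Hyp D a (fz D)) : ℚ) : ℝ) * x ^ k := by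
      intro k
      rw [hcoef]
      rcases Nat.eq_zero_or_pos k with rfl | hk
      · simp
      · have : (0 : ℝ) ≤ ((h0 D k : ℚ) : ℝ) := by exact_mod_cast h0_nonneg hhg D k hk
        positivity
    have hsum : Summable fun k : ℕ =>
        ((PowerSeries.coeff k (Hyp D a (fz D)) : ℚ) : ℝ) * x ^ k := by
      have h6 : Summable fun k : ℕ => ((k : ℝ) ^ C * ((D.lam : ℝ) * x) ^ k : ℝ) :=
        summable_pow_mul_geometric_of_norm_lt_one C
          (by rw [Real.norm_eq_abs, abs_of_nonneg hlx0]; exact hlx)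
      have h7 : Summable fun k : ℕ =>
          (((k + 1 : ℕ) : ℝ) ^ C * ((D.lam : ℝ) * x) ^ (k + 1) : ℝ) :=
        (summable_nat_add_iff 1).2 h6
      have h8 : Summable fun k : ℕ => ((C : ℝ) * ((D.lam : ℝ) * x)⁻¹) *
          (((k + 1 : ℕ) : ℝ) ^ C * ((D.lam : ℝ) * x) ^ (k + 1) : ℝ) := h7.mul_left _
      refine Summable.of_nonneg_of_le hnn (fun k => ?_) h8
      have h9 := hC a (fz D) k
      have h10 : |((PowerSeries.coeff k (Hyp D a (fz D)) : ℚ) : ℝ)| ≤
          (C : ℝ) * ((k : ℝ) + 1) ^ C * (D.lam : ℝ) ^ k := by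
        have : ((|PowerSeries.coeff k (Hyp D a (fz D))| : ℚ) : ℝ) ≤
            (((C : ℚ) * ((k : ℚ) + 1) ^ C * D.lam ^ k : ℚ) : ℝ) := by exact_mod_cast h9
        push_cast at this
        exact this
      have h11 := le_trans (le_abs_self _) h10
      have hlx' : (D.lam : ℝ) * x ≠ 0 := (mul_pos hlam hx0).ne'
      calc ((PowerSeries.coeff k (Hyp D a (fz D)) : ℚ) : ℝ) * x ^ k
          ≤ ((C : ℝ) * ((k : ℝ) + 1) ^ C * (D.lam : ℝ) ^ k) * x ^ k :=
            mul_le_mul_of_nonneg_right h11 (by positivity)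
        _ = (C : ℝ) * ((k : ℝ) + 1) ^ C * ((D.lam : ℝ) * x) ^ k := by rw [mul_pow]; ring
        _ = ((C : ℝ) * ((D.lam : ℝ) * x)⁻¹) *
          (((k + 1 : ℕ) : ℝ) ^ C * ((D.lam : ℝ) * x) ^ (k + 1) : ℝ) := by
            rw [pow_succ ((D.lam : ℝ) * x) k]
            push_cast
            field_simp
    calc ∑ k ∈ Finset.range K, (c : ℝ) * ((D.lam : ℝ) * x) ^ (k + 1)
        ≤ ∑ k ∈ Finset.range K,
          ((PowerSeries.coeff (k + 1) (Hyp D a (fz D)) : ℚ) : ℝ) * x ^ (k + 1) := by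
          apply Finset.sum_le_sum
          intro k _
          rw [hcoef, mul_pow, ← mul_assoc]
          apply mul_le_mul_of_nonneg_right _ (by positivity)
          have h6 := h3 (k + 1) (by omega)
          have h7 : ((c * D.lam ^ (k + 1) : ℚ) : ℝ) ≤
              ((PowerSeries.coeff (k + 1) (Hyp D (fz D) (fz D)) *
                ((k + 1 : ℕ) : ℚ) ^ (D.s + 1) : ℚ) : ℝ) := by
            exact_mod_cast h6
          push_cast at h7 ⊢
          calc (c : ℝ) * (D.lam : ℝ) ^ (k + 1) ≤ _ := h7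
            _ = ((k : ℝ) + 1) ^ (D.s + 1) * ((h0 D (k + 1) : ℚ) : ℝ) := by rw [h0]; ring
      _ ≤ ∑ k ∈ Finset.range (K + 1),
          ((PowerSeries.coeff k (Hyp D a (fz D)) : ℚ) : ℝ) * x ^ k := by
          rw [Finset.sum_range_succ']
          have := hnn 0
          linarith
      _ ≤ ∑' k, ((PowerSeries.coeff k (Hyp D a (fz D)) : ℚ) : ℝ) * x ^ k :=
          hsum.sum_le_tsum _ fun k _ => hnn k
  obtain ⟨K, hK⟩ := exists_nat_gt (g 0 / c)
  have := key K
  rw [div_lt_iff₀ hc'] at hK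
  linarith

/-- the first entry is not analytic at the conifold point -/
theorem not_analytic (hana : AnaStmt) (hhg : Hg0Stmt) (hgr : HgrStmt) (D : Dat) {g : ℝ → ℝ}
    (hg : AnalyticAt ℝ g 0)
    (hg' : ∀ᶠ u in 𝓝[>] (0 : ℝ), W D (D.lam + u) (fz D) (fz D) = g u) : False := by
  have hs : D.s + 1 < ro D := by have := D.two_le; change D.s + 1 < 2 * D.s + 1; omega
  have key : ∀ n : ℕ, ∀ hn : n < ro D, ∃ g : ℝ → ℝ, AnalyticAt ℝ g 0 ∧
      ∀ᶠ u in 𝓝[>] (0 : ℝ), W D (D.lam + u) ⟨n, hn⟩ (fz D) = g u := by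
    intro n
    induction n with
    | zero => exact fun _ => ⟨g, hg, hg'⟩
    | succ n ih =>
      intro hn
      obtain ⟨g1, h1, h2⟩ := ih (Nat.lt_of_succ_lt hn)
      exact boot hana D ⟨n, Nat.lt_of_succ_lt hn⟩ hn (fz D) h1 h2
  obtain ⟨g1, h1, h2⟩ := key (D.s + 1) hs
  exact unbounded hhg hgr D ⟨D.s + 1, hs⟩ rfl h1.continuousAt h2

/-! ### The matrix `J0` -/

/-- the real matrix -/
def JR (D : Dat) : Matrix (Fin (ro D)) (Fin (ro D)) ℝ := (J0 (ro D)).map (fun x => (x : ℝ))

/-- the reversed index -/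
def rv (D : Dat) (a : Fin (ro D)) : Fin (ro D) := ⟨ro D - 1 - a, by have := a.2; omega⟩

theorem JR_mulVec (D : Dat) (v : Fin (ro D) → ℝ) (a : Fin (ro D)) :
    (JR D *ᵥ v) a = (-1) ^ (a : ℕ) * v (rv D a) := by
  rw [Matrix.mulVec, dotProduct, Finset.sum_eq_single (rv D a)]
  · congr 1
    change ((J0 (ro D) a (rv D a) : ℚ) : ℝ) = _
    unfold J0
    rw [if_pos (by have := a.2; simp only [rv]; omega)]
    push_cast
    rfl
  · intro b _ hb
    have : JR D a b = 0 := by
      change ((J0 (ro D) a b : ℚ) : ℝ) = 0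
      unfold J0
      rw [if_neg, Rat.cast_zero]
      intro h
      apply hb
      apply Fin.ext
      simp only [rv]
      omega
    rw [this, zero_mul]
  · intro h'
    exact absurd (Finset.mem_univ _) h'

/-- CYC -/
theorem cyc (hana : AnaStmt) (hsqr : SqrStmt) (hhg : Hg0Stmt) (hgr : HgrStmt) : CycStmt := by
  intro D v l A hA hV hlv hW
  have hlam := lam_pos' D
  -- the first entry of `l`
  have hl : l (fz D) ≠ 0 := by
    intro h0
    apply not_analytic hana hhg hgr D (hA (fz D) (fz D))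
    filter_upwards [hW] with u hu
    have h1 := congrFun (congrFun hu (fz D)) (fz D)
    rw [Matrix.add_apply, vecMulVec_apply, h0, mul_zero, add_zero] at h1
    exact h1
  set κ : ℝ := v ⬝ᵥ (JR D *ᵥ v) with hκ
  -- the symmetry
  have hsym : ∀ i, (JR D *ᵥ v) i = κ * l i := by
    intro i
    -- the coefficient functions
    let JJ : ℝ → Matrix (Fin (ro D)) (Fin (ro D)) ℝ := fun u =>
      (Jm D).map (fun p => (p.map (algebraMap ℚ ℝ)).eval ((D.lam : ℝ) + u)⁻¹)
    have hJJ : ∀ a b, MerG fun u => JJ u a b := by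
      intro a b
      apply merG_analytic
      have h1 : AnalyticAt ℝ (fun u : ℝ => ((D.lam : ℝ) + u)⁻¹) 0 :=
        (analyticAt_const.add analyticAt_id).inv (by simpa using hlam.ne')
      have h2 : ∀ p : Polynomial ℝ, AnalyticAt ℝ (fun u : ℝ => p.eval ((D.lam : ℝ) + u)⁻¹) 0 := by
        intro p
        induction p using Polynomial.induction_on' with
        | add p q hp hq =>
          simp only [Polynomial.eval_add]
          exact hp.add hq
        | monomial n c =>
          simp only [Polynomial.eval_monomial]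
          exact analyticAt_const.mul (h1.pow n)
      exact h2 _
    have hf : MerG fun u => ∑ a, ∑ b, A u a i * JJ u a b *
        (Real.sqrt u * (W D (D.lam + u) *ᵥ v) b) := by
      apply merG_sum
      intro a _
      apply merG_sum
      intro b _
      exact merG_mul (merG_mul (merG_analytic (hA a i)) (hJJ a b)) (hV b)
    have hrel : ∀ᶠ u in 𝓝[>] (0 : ℝ), (∑ a, ∑ b, A u a i * JJ u a b *
        (Real.sqrt u * (W D (D.lam + u) *ᵥ v) b)) +
          Real.sqrt u * (κ * l i - (JR D *ᵥ v) i) = 0 := by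
      filter_upwards [hW, self_mem_nhdsWithin] with u hu hu0
      have hu1 : (0 : ℝ) < u := hu0
      obtain ⟨_, _, h3, _⟩ := hana D (D.lam + u) (by linarith)
      set w := W D (D.lam + u) with hw
      have hAw : A u = w * (1 - vecMulVec v l) := by
        rw [Matrix.mul_sub, Matrix.mul_one]
        have h4 : w * vecMulVec v l = vecMulVec (w *ᵥ v) l := by
          ext a b
          rw [Matrix.mul_apply, vecMulVec_apply, Matrix.mulVec, dotProduct, Finset.sum_mul]
          apply Finset.sum_congr rfl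
          intro c _
          rw [vecMulVec_apply, mul_assoc]
        rw [h4]
        have h5 : w = A u + vecMulVec (w *ᵥ v) l := hu
        exact eq_sub_of_add_eq h5.symm
      have h6 : ∑ a, ∑ b, A u a i * JJ u a b * (Real.sqrt u * (w *ᵥ v) b) =
          Real.sqrt u * (((A u)ᵀ * JJ u * w) *ᵥ v) i := by
        have e1 : (((A u)ᵀ * JJ u * w) *ᵥ v) i = ∑ b, ∑ a, A u a i * JJ u a b * (w *ᵥ v) b := by
          rw [← Matrix.mulVec_mulVec, Matrix.mulVec, dotProduct]
          apply Finset.sum_congr rfl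
          intro b _
          rw [Matrix.mul_apply, Finset.sum_mul]
          rfl
        rw [e1, Finset.mul_sum, Finset.sum_comm]
        apply Finset.sum_congr rfl
        intro b _
        rw [Finset.mul_sum]
        apply Finset.sum_congr rfl
        intro a _
        ring
      have h7 : (A u)ᵀ * JJ u * w = (1 - vecMulVec l v) * JR D := by
        have e1 : (1 - vecMulVec v l)ᵀ = 1 - vecMulVec l v := by
          rw [Matrix.transpose_sub, Matrix.transpose_one, Matrix.transpose_vecMulVec]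
        have h8 : wᵀ * JJ u * w = JR D := h3
        rw [hAw, Matrix.transpose_mul, e1, Matrix.mul_assoc, Matrix.mul_assoc, ← Matrix.mul_assoc wᵀ,
          h8]
      have h9 : (((A u)ᵀ * JJ u * w) *ᵥ v) i = (JR D *ᵥ v) i - κ * l i := by
        rw [h7, ← Matrix.mulVec_mulVec, Matrix.sub_mulVec, Matrix.one_mulVec]
        have e1 : vecMulVec l v *ᵥ (JR D *ᵥ v) = fun j => κ * l j := by
          funext j
          rw [Matrix.mulVec, dotProduct, hκ, dotProduct, Finset.sum_mul]
          apply Finset.sum_congr rfl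
          intro b _
          rw [vecMulVec_apply]
          ring
        rw [e1]
        rfl
      rw [h6, h9]
      ring
    obtain ⟨_, h2⟩ := hsqr _ _ hf (merG_const (κ * l i - (JR D *ᵥ v) i)) hrel
    obtain ⟨u, hu⟩ := h2.exists
    linarith
  -- `v ≠ 0`
  have hv : v ≠ 0 := by
    intro h0
    rw [h0, dotProduct_zero] at hlv
    exact zero_ne_one hlv
  have hκ0 : κ ≠ 0 := by
    intro h0
    apply hv
    funext a
    have h1 := hsym (rv D a)
    rw [JR_mulVec, h0, zero_mul] at h1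
    have h2 : rv D (rv D a) = a := by
      apply Fin.ext
      simp only [rv]
      have := a.2
      omega
    rw [h2] at h1
    rcases mul_eq_zero.1 h1 with h3 | h3
    · exact absurd h3 (pow_ne_zero _ (by norm_num))
    · exact h3
  have hl' : l = κ⁻¹ • (JR D *ᵥ v) := by
    funext i
    rw [Pi.smul_apply, hsym i, smul_eq_mul, ← mul_assoc, inv_mul_cancel₀ hκ0, one_mul]
  refine ⟨?_, hl, κ⁻¹, hl'⟩
  intro h0
  apply hl
  have h1 := hsym (fz D)
  rw [JR_mulVec] at h1
  have h2 : rv D (fz D) = fl D := by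
    apply Fin.ext
    simp only [rv, fz, fl]
    change 2 * D.s + 1 - 1 - 0 = 2 * D.s
    omega
  rw [h2, h0, mul_zero] at h1
  exact (mul_eq_zero.1 h1.symm).resolve_left hκ0

end Pool.Agent.MT100B.H94
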